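import Pool.Agent.Q138.PS.VX
import Pool.Agent.Q138.PS.WB
import Pool.Agent.Q138.AI.Rf1a024

/-!
# `ζ(2N)/ζ(N)²` and quadratic forms in truncated integrals at the integers close to `α P(n)`

For integers `N, t ≥ 2` let `I_N(t) = (1/(N-1)!) ∫_{1/t}^1 log(1/v)^(N-1) / (1-v) dv`, the truncation of the integral for `ζ(N)`,
and `q_{N,i}(t) = log(t)^i Li_{N-i}(1/t)`, `0 ≤ i < N`, so that `ζ(N) = I_N(t) + ∑_i q_{N,i}(t) / i!`. If `ζ(2N)/ζ(N)²` is rational,
then for ALL `t ≥ 2` the number `ζ(2N)` is a rational quadratic form in these `N + 1` numbers.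

Let `q ≥ 2`. Outside a set of real numbers of Hausdorff dimension at most `q / (q + 1 / (q 2 ^ (q - 1)))` (that is `8 / 9` for
`q = 2`) every `α > 0` has the following property. There is `η > 0` such that the properties `A` of integers named below are
RARE along `α P(n)`: there is `κ > 0` such that for all large `M` and ALL integral polynomials `P` of degree `q` with positive
leading coefficient and coefficients of size at most `M ^ η`, for all but `M ^ (1 - κ)` of the `n ≤ M`, NO integer `t ≥ 2` with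
`|t - ⌊α P(n)⌋| ≤ M ^ κ` has the property `A`.

* For each `N ≥ 2` the number `ζ(2N)/ζ(N)²` is irrational if and only if it is rare that `ζ(2N)` is a rational quadratic form in
  the numbers `I_N(t)`, `q_{N,i}(t)`, `0 ≤ i < N`. Hence the question has the answer yes if and only if this is rare for
  every odd `N ≥ 3`.
* Without any hypothesis, for all `N ≥ 2`, every `D` and every finitely generated rational space `K` contained in the span of a
  given countable set of complex numbers, it is rare that a polynomial relation of degree at most `D` with coefficients in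
  `K` between the numbers `I_N(t)`, `q_{N,i}(t)` does not specialise (hold if `I_N(t)` is replaced by `ζ(N)` and all
  `q_{N,i}(t)` by `0`).
-/

set_option autoImplicit false

namespace Pool.Agent.Results.MP_f1a024_nt.FormsNearRealMultiples

open Filter Module Pool.Agent.Q138.PS Pool.Agent.Q138.AI.Rf1a024

/-- **Theorem.** -/
theorem result (d : ℕ) (hd : 2 ≤ d) (X : Set ℂ) (hX : X.Countable) :
    ∃ E : Set ℝ, dimH E ≤ ENNReal.ofReal (d / (d + 1 / ((d : ℝ) * 2 ^ (d - 1)))) ∧ ∀ α : ℝ, 0 < α → α ∉ E →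
      ∃ η : ℝ, 0 < η ∧
      (∀ N : ℕ, 2 ≤ N → (Irrational (zeta (2 * N) / zeta N ^ 2) ↔ Rare d α η 2 fun n => zeta (2 * N) ∈ Quad N n)) ∧
      ((∀ N : ℕ, 1 < N → Odd N → Irrational (zeta (2 * N) / zeta N ^ 2)) ↔
        ∀ N : ℕ, 1 < N → Odd N → Rare d α η 2 fun n => zeta (2 * N) ∈ Quad N n) ∧
      ∀ N : ℕ, 2 ≤ N → ∀ (D : ℕ) (K : Submodule ℚ ℂ), K.FG → K ≤ Submodule.span ℚ X →
        Rare d α η 2 fun n => ¬ Specialise K D N n := by
  obtain ⟨-, hone, hfew, -, hspec⟩ := Pool.Agent.Q138.AI.Rf1a024.result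
  have hc := countFG X hX
  obtain ⟨E, hE, hg⟩ := rare_ae (ι := ℕ ⊕ (ℕ × ℕ × {K : Submodule ℚ ℂ // K.FG ∧ K ≤ Submodule.span ℚ X})) d hd
    (Sum.elim (fun N n => zeta (2 * N) ∈ Quad N n) (fun i n => ¬ Specialise i.2.2.1 i.2.1 i.1 n))
  refine ⟨E, hE, fun α hα hαE => ?_⟩
  obtain ⟨η, hη, h1⟩ := hg α hα hαE
  have key : ∀ N : ℕ, 2 ≤ N → (Irrational (zeta (2 * N) / zeta N ^ 2) ↔ Rare d α η 2 fun n => zeta (2 * N) ∈ Quad N n) :=
    fun N hN => ⟨fun h => h1 (Sum.inl N) 2 ((hfew N hN).1 h), fun h => (hone N hN).2 (h.exists_not hη)⟩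
  exact ⟨η, hη, key, ⟨fun h N hN hN' => (key N hN).1 (h N hN hN'), fun h N hN hN' => (key N hN).2 (h N hN hN')⟩,
    fun N hN D K hK hKX => h1 (Sum.inr (N, D, ⟨K, hK, hKX⟩)) 2 (hspec N hN D K hK)⟩

end Pool.Agent.Results.MP_f1a024_nt.FormsNearRealMultiples
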