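import Mathlib
import Pool.Agent.Q158.EqD.SharpSeq
import Pool.Agent.Q158.EqD.Weyl
import Pool.Agent.Results.MP_f1a024_nt.RothTypeBound

/-!
# `ζ(2n) / ζ(n) ^ 2` at large integers: the discrepancy of the multiples up to exponential scales

Let `t(n) = ζ(2n) / ζ(n) ^ 2` and let `D_M(y)` be the discrepancy of the multiples `y, 2 y, …, M y` modulo
one; `y` is irrational if and only if `D_M(y) → 0`, and `D_M(y) ≥ c (log M) / M` for infinitely many
`M`, for every `y`. Let `β ≠ 0` be a real algebraic number, `C` real and `B > 1`. For all large `n` and ALL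
`M ≤ C ^ n`, `D_M(β t(n)) ≤ (2 B) ^ n / M`, and `D_M(β t(n)) ≤ B ^ n / M` if `β` is irrational.

Proof. If every approximation by fractions with denominators `≤ m` has a denominator `≥ m / A` when it is
best possible, for all `m` between `N₀` and `M`, then a decomposition of `[1, M]` into blocks
of lengths equal to such denominators gives `D_M(y) ≤ (6 A (log₂ M + 1) + 2 N₀) / M`. The bound of
the starting file `RothTypeBound.lean` gives `A = B ^ n`; the fraction `β` itself, if `β` is rational, is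
excluded for `m > N₀ = (8 / |β|) 2 ^ n` because `1 - t(n) ≥ 2 ^ (-n - 3)`.
-/

set_option autoImplicit false

namespace Pool.Agent.Results.MP_f1a024_nt.SharpDiscrepancy

noncomputable section

/-- The number of the `m`, `1 ≤ m ≤ M`, for which the fractional part of `m x` lies in `[a, b)`. -/
def count (x : ℝ) (M : ℕ) (a b : ℝ) : ℕ :=
  ((Finset.Icc 1 M).filter fun m : ℕ => a ≤ Int.fract (m * x) ∧ Int.fract (m * x) < b).card

/-- The discrepancy of `x, 2 x, …, M x` modulo one: the supremum over the intervals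
`[a, b) ⊆ [0, 1)` of the difference between the proportion of the `m ≤ M` with `m x` in `[a, b)`
modulo one and the length of the interval. -/
def discrepancy (x : ℝ) (M : ℕ) : ℝ :=
  sSup {d | ∃ a b : ℝ, 0 ≤ a ∧ a ≤ b ∧ b ≤ 1 ∧ d = |(count x M a b : ℝ) / M - (b - a)|}

/-- `ζ(n)` for `n ≥ 2` -/
def z (n : ℕ) : ℝ := ∑' k : ℕ, 1 / ((k : ℝ) + 1) ^ n

/-- `t(n) = ζ(2n) / ζ(n) ^ 2` -/
def t (n : ℕ) : ℝ := z (2 * n) / z n ^ 2

lemma z_cast (n : ℕ) (hn : 1 < n) : ((z n : ℝ) : ℂ) = riemannZeta n := by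
  rw [zeta_nat_eq_tsum_of_gt_one hn]
  have hs : Summable fun k : ℕ => 1 / (k : ℂ) ^ n := by
    have := (Complex.summable_one_div_nat_cpow (p := (n : ℂ))).2 (by simpa using hn)
    simpa using this
  rw [hs.tsum_eq_zero_add]
  unfold z
  rw [Complex.ofReal_tsum]
  have h0 : (1 : ℂ) / ((0 : ℕ) : ℂ) ^ n = 0 := by
    rw [Nat.cast_zero, zero_pow (by omega), div_zero]
  rw [h0, zero_add]
  congr 1
  funext k
  push_cast
  rfl

lemma t_cast (n : ℕ) (hn : 1 < n) :
    ((t n : ℝ) : ℂ) = Pool.Agent.Results.MP_f1a024_nt.RothTypeBound.t n := by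
  unfold t Pool.Agent.Results.MP_f1a024_nt.RothTypeBound.t
  push_cast
  rw [z_cast (2 * n) (by omega), z_cast n hn]
  push_cast
  rfl

lemma z_summable (n : ℕ) (hn : 1 < n) : Summable fun k : ℕ => 1 / ((k : ℝ) + 1) ^ n := by
  have h := (Real.summable_one_div_nat_pow (p := n)).2 hn
  have h2 := (summable_nat_add_iff 1).2 h
  refine h2.congr fun k => ?_
  push_cast
  rfl

lemma one_le_z (n : ℕ) (hn : 1 < n) : 1 ≤ z n := by
  have h := (z_summable n hn).sum_le_tsum (Finset.range 1) (fun k _ => by positivity)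
  simpa [z] using h

lemma z_anti {n m : ℕ} (hn : 1 < n) (hnm : n ≤ m) : z m ≤ z n := by
  unfold z
  apply (z_summable m (by omega)).tsum_le_tsum _ (z_summable n hn)
  intro k
  have h3 : (1 : ℝ) ≤ (k : ℝ) + 1 := by
    have : (0 : ℝ) ≤ k := by positivity
    linarith
  apply one_div_le_one_div_of_le (by positivity)
  exact pow_le_pow_right₀ h3 hnm

lemma z_two : z 2 ≤ 2 := by
  have h1 : HasSum (fun k : ℕ => 1 / ((k : ℝ)) ^ 2) (Real.pi ^ 2 / 6) := hasSum_zeta_two
  have h2 : z 2 = Real.pi ^ 2 / 6 := by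
    rw [← h1.tsum_eq, h1.summable.tsum_eq_zero_add]
    simp [z]
  rw [h2]
  have h3 := Real.pi_lt_d2
  have h4 := Real.pi_pos
  nlinarith

lemma z_le_two (n : ℕ) (hn : 1 < n) : z n ≤ 2 := (z_anti (by norm_num) hn).trans z_two

/-- `1 - t(n) ≥ 2 ^ (-n) / 8` -/
lemma one_sub_t (n : ℕ) (hn : 1 < n) : 1 / (8 * 2 ^ n) ≤ 1 - t n := by
  have h1 := one_le_z n hn
  have h2 := z_le_two n hn
  have h3 : (1 : ℝ) / 2 ^ n - 1 / 2 ^ (2 * n) ≤ z n - z (2 * n) := by
    unfold z
    rw [← (z_summable n hn).tsum_sub (z_summable (2 * n) (by omega))]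
    have hs := (z_summable n hn).sub (z_summable (2 * n) (by omega))
    have h4 := hs.le_tsum 1 (fun k _ => by
      rw [sub_nonneg]
      have h3 : (1 : ℝ) ≤ (k : ℝ) + 1 := by
        have : (0 : ℝ) ≤ k := by positivity
        linarith
      apply one_div_le_one_div_of_le (by positivity)
      exact pow_le_pow_right₀ h3 (by omega))
    refine le_trans (le_of_eq ?_) h4
    norm_num
  have h5 : (1 : ℝ) / (2 * 2 ^ n) ≤ 1 / 2 ^ n - 1 / 2 ^ (2 * n) := by
    have e : (2 : ℝ) ^ (2 * n) = 2 ^ n * 2 ^ n := by rw [two_mul, pow_add]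
    have h6 : (2 : ℝ) ≤ 2 ^ n := le_self_pow₀ (by norm_num) (by omega)
    rw [e]
    have h7 : (0 : ℝ) < 2 ^ n := by positivity
    have h8 : (1 : ℝ) / 2 ^ n - 1 / (2 ^ n * 2 ^ n) - 1 / (2 * 2 ^ n) =
        (2 ^ n - 2) / (2 * (2 ^ n * 2 ^ n)) := by
      field_simp
      ring
    have h9 : (0 : ℝ) ≤ (2 ^ n - 2) / (2 * (2 ^ n * 2 ^ n)) :=
      div_nonneg (by linarith) (by positivity)
    linarith
  have h6 : 1 - t n = (z n ^ 2 - z (2 * n)) / z n ^ 2 := by
    unfold t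
    field_simp
  rw [h6, le_div_iff₀ (by positivity)]
  have h7 : z n - z (2 * n) ≤ z n ^ 2 - z (2 * n) := by nlinarith
  have h8 : z n ^ 2 ≤ 4 := by nlinarith
  calc 1 / (8 * 2 ^ n) * z n ^ 2 ≤ 1 / (8 * 2 ^ n) * 4 := by gcongr
    _ = 1 / (2 * 2 ^ n) := by field_simp; norm_num
    _ ≤ _ := by linarith

/-- **Main theorem.** -/
theorem result (β : ℝ) (hβ : IsAlgebraic ℚ β) (hβ0 : β ≠ 0) (C B : ℝ) (hB : 1 < B) :
    ∃ n0 : ℕ, ∀ n : ℕ, n0 ≤ n → ∀ M : ℕ, 0 < M → (M : ℝ) ≤ C ^ n →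
      discrepancy (β * t n) M ≤ (2 * B) ^ n / M ∧
      (Irrational β → discrepancy (β * t n) M ≤ B ^ n / M) := by
  -- the bound for the denominators of the good approximations
  have key : ∀ C B : ℝ, 1 < B → ∃ n0 : ℕ, ∀ n : ℕ, n0 ≤ n → ∀ m : ℕ, 0 < m →
      (m : ℝ) ≤ C ^ n → ∀ r : ℚ, r.den ≤ m → |β * t n - r| ≤ 1 / (((m : ℝ) + 1) * r.den) →
      (r : ℝ) ≠ β → (m : ℝ) ≤ B ^ n * r.den := by
    intro C B hB
    obtain ⟨n1, hn1⟩ :=
      Pool.Agent.Results.MP_f1a024_nt.RothTypeBound.result β hβ hβ0 C B hB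
    refine ⟨n1 + 2, fun n hn m hm hmC r hr1 hr2 hrβ => ?_⟩
    have hd : (0 : ℝ) < r.den := by exact_mod_cast r.den_pos
    have hrr : (r : ℝ) = r.num / r.den := by exact_mod_cast (Rat.num_div_den r).symm
    have h1 := hn1 n (by omega) r.num (r.den : ℤ) (by exact_mod_cast r.den_pos)
      (by
        have : (r.den : ℝ) ≤ m := by exact_mod_cast hr1
        push_cast
        linarith) (by
        push_cast
        rw [← hrr]
        exact hrβ)
    have h2 : (β : ℂ) * Pool.Agent.Results.MP_f1a024_nt.RothTypeBound.t n -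
        ((r.num : ℤ) : ℂ) / (((r.den : ℤ)) : ℂ) = ((β * t n - r : ℝ) : ℂ) := by
      rw [← t_cast n (by omega), hrr]
      push_cast
      rfl
    rw [h2, Complex.norm_real, Real.norm_eq_abs] at h1
    have h3 := h1.trans_le hr2
    have hBn : (0 : ℝ) < B ^ n := by positivity
    push_cast at h3
    rw [div_lt_div_iff₀ (by positivity) (by positivity), one_mul, one_mul] at h3
    have h4 : ((m : ℝ) + 1) * r.den < (B ^ n * r.den) * r.den := by
      calc ((m : ℝ) + 1) * r.den < (r.den : ℝ) ^ 2 * B ^ n := h3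
        _ = _ := by ring
    have h5 := lt_of_mul_lt_mul_right h4 hd.le
    linarith
  have hA : ∃ n0 : ℕ, ∀ n : ℕ, n0 ≤ n → ∀ M : ℕ, 0 < M → (M : ℝ) ≤ C ^ n →
      Pool.Agent.Q158.EqD.disc (β * t n) M ≤ (2 * B) ^ n / M := by
    apply Pool.Agent.Q158.EqD.sharp_seq (fun n => β * t n) 2 (8 / |β|) (by norm_num)
      (by positivity) _ C B hB
    intro C B hB
    obtain ⟨n1, hn1⟩ := key C B hB
    refine ⟨n1 + 2, fun n hn m hm hmK hmC r hr1 hr2 => ?_⟩
    apply hn1 n (by omega) m hm hmC r hr1 hr2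
    intro hrβ
    have hd : (1 : ℝ) ≤ r.den := by exact_mod_cast r.den_pos
    have hmR : (0 : ℝ) < m := by exact_mod_cast hm
    have h1 := one_sub_t n (by omega)
    have hb : 0 < |β| := abs_pos.2 hβ0
    have h2 : |β * t n - r| = |β| * (1 - t n) := by
      have h3 : 0 ≤ 1 - t n := le_trans (by positivity) h1
      rw [hrβ, show β * t n - β = -(β * (1 - t n)) by ring, abs_neg, abs_mul, abs_of_nonneg h3]
    rw [h2] at hr2
    have h3 : |β| * (1 / (8 * 2 ^ n)) ≤ 1 / (m : ℝ) := by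
      refine (mul_le_mul_of_nonneg_left h1 hb.le).trans (hr2.trans ?_)
      apply one_div_le_one_div_of_le hmR
      nlinarith
    have h4 : (m : ℝ) ≤ 8 / |β| * 2 ^ n := by
      rw [mul_one_div, div_le_div_iff₀ (by positivity) hmR, one_mul] at h3
      rw [div_mul_eq_mul_div, le_div_iff₀ hb]
      linarith
    linarith
  by_cases hirr : Irrational β
  · have hB' : ∃ n0 : ℕ, ∀ n : ℕ, n0 ≤ n → ∀ M : ℕ, 0 < M → (M : ℝ) ≤ C ^ n →
        Pool.Agent.Q158.EqD.disc (β * t n) M ≤ (1 * B) ^ n / M := by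
      apply Pool.Agent.Q158.EqD.sharp_seq (fun n => β * t n) 1 0 le_rfl le_rfl _ C B hB
      intro C B hB
      obtain ⟨n1, hn1⟩ := key C B hB
      refine ⟨n1, fun n hn m hm _ hmC r hr1 hr2 => ?_⟩
      apply hn1 n hn m hm hmC r hr1 hr2
      intro hrβ
      exact hirr ⟨r, hrβ⟩
    obtain ⟨n1, hn1⟩ := hA
    obtain ⟨n2, hn2⟩ := hB'
    refine ⟨n1 + n2, fun n hn M hM hMC => ⟨hn1 n (by omega) M hM hMC, fun _ => ?_⟩⟩
    have := hn2 n (by omega) M hM hMC
    rw [one_mul] at this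
    exact this
  · obtain ⟨n1, hn1⟩ := hA
    exact ⟨n1, fun n hn M hM hMC => ⟨hn1 n hn M hM hMC, fun h => absurd h hirr⟩⟩

/-- `y` is irrational if and only if the discrepancies tend to zero. -/
theorem discrepancy_tendsto_iff (y : ℝ) :
    Filter.Tendsto (fun M : ℕ => discrepancy y M) Filter.atTop (nhds 0) ↔ Irrational y :=
  Pool.Agent.Q158.EqD.tendsto_iff y

end

end Pool.Agent.Results.MP_f1a024_nt.SharpDiscrepancy
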