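import Mathlib
import Pool.Agent.Q158.EqD.Far
import Pool.Agent.Q158.EqD.Weyl
import Pool.Agent.Results.MP_f1a024_nt.ExponentialHeights

/-!
# `ζ(2n) / ζ(n) ^ 2` at large integers: equidistribution at every large scale

Let `t(n) = ζ(2n) / ζ(n) ^ 2` and let `D_M(y)` be the discrepancy of the multiples `y, 2 y, …, M y` modulo
one; `y` is irrational if and only if `D_M(y) → 0`. For all `h, d` and `C > 1` there are `D` and
`n₀` such that for all `n ≥ n₀` and all polynomials `P` in `h + 1` variables, not constant, with integer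
coefficients of absolute value at most `C ^ n` and of total degree at most `d`,

`D_M(P(t(n), t(n+1), …, t(n+h))) ≤ C ^ (-n)` for ALL `M ≥ D ^ n`.

Proof. A discrepancy `D_M(y) > δ` gives a rational approximation `p / q` to `y` with `q ≤ 12 / δ` and
`|y - p / q| ≤ 16 / (δ M q)`. The polynomial `q P - p` is not zero and has exponentially bounded
coefficients, and its value at the point is too small for the starting file `ExponentialHeights.lean`.
-/

set_option autoImplicit false

open MvPolynomial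

namespace Pool.Agent.Results.MP_f1a024_nt.UniformDiscrepancy

noncomputable section

/-- The number of the `m`, `1 ≤ m ≤ M`, for which the fractional part of `m x` lies in `[a, b)`. -/
def count (x : ℝ) (M : ℕ) (a b : ℝ) : ℕ :=
  ((Finset.Icc 1 M).filter fun m : ℕ => a ≤ Int.fract (m * x) ∧ Int.fract (m * x) < b).card

/-- The discrepancy of `x, 2 x, …, M x` modulo one: the supremum over the intervals
`[a, b) ⊆ [0, 1)` of the difference between the proportion of the `m ≤ M` with `m x` in `[a, b)`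
modulo one and the length of the interval. -/
def discrepancy (x : ℝ) (M : ℕ) : ℝ :=
  sSup {d | ∃ a b : ℝ, 0 ≤ a ∧ a ≤ b ∧ b ≤ 1 ∧ d = |(count x M a b : ℝ) / M - (b - a)|}

/-- `ζ(n)` for `n ≥ 2` -/
def z (n : ℕ) : ℝ := ∑' k : ℕ, 1 / ((k : ℝ) + 1) ^ n

/-- `t(n) = ζ(2n) / ζ(n) ^ 2` -/
def t (n : ℕ) : ℝ := z (2 * n) / z n ^ 2

lemma z_cast (n : ℕ) (hn : 1 < n) : ((z n : ℝ) : ℂ) = riemannZeta n := by
  rw [zeta_nat_eq_tsum_of_gt_one hn]
  have hs : Summable fun k : ℕ => 1 / (k : ℂ) ^ n := by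
    have := (Complex.summable_one_div_nat_cpow (p := (n : ℂ))).2 (by simpa using hn)
    simpa using this
  rw [hs.tsum_eq_zero_add]
  unfold z
  rw [Complex.ofReal_tsum]
  have h0 : (1 : ℂ) / ((0 : ℕ) : ℂ) ^ n = 0 := by
    rw [Nat.cast_zero, zero_pow (by omega), div_zero]
  rw [h0, zero_add]
  congr 1
  funext k
  push_cast
  rfl

lemma t_cast (n : ℕ) (hn : 1 < n) :
    ((t n : ℝ) : ℂ) = Pool.Agent.Results.MP_f1a024_nt.ExponentialHeights.t n := by
  unfold t Pool.Agent.Results.MP_f1a024_nt.ExponentialHeights.t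
  push_cast
  rw [z_cast (2 * n) (by omega), z_cast n hn]
  push_cast
  rfl

lemma z_summable (n : ℕ) (hn : 1 < n) : Summable fun k : ℕ => 1 / ((k : ℝ) + 1) ^ n := by
  have h := (Real.summable_one_div_nat_pow (p := n)).2 hn
  have h2 := (summable_nat_add_iff 1).2 h
  refine h2.congr fun k => ?_
  push_cast
  rfl

lemma one_le_z (n : ℕ) (hn : 1 < n) : 1 ≤ z n := by
  have h := (z_summable n hn).sum_le_tsum (Finset.range 1) (fun k _ => by positivity)
  simpa [z] using h

lemma t_nonneg (n : ℕ) : 0 ≤ t n := by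
  unfold t z
  have : ∀ m : ℕ, 0 ≤ ∑' k : ℕ, 1 / ((k : ℝ) + 1) ^ m := fun m => tsum_nonneg fun k => by positivity
  have h1 := this (2 * n)
  positivity

lemma t_le (n : ℕ) (hn : 1 < n) : t n ≤ 1 := by
  have h1 := one_le_z n hn
  have h2 : z (2 * n) ≤ z n := by
    unfold z
    apply (z_summable (2 * n) (by omega)).tsum_le_tsum _ (z_summable n hn)
    intro k
    have h3 : (1 : ℝ) ≤ (k : ℝ) + 1 := by
      have : (0 : ℝ) ≤ k := by positivity
      linarith
    apply one_div_le_one_div_of_le (by positivity)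
    exact pow_le_pow_right₀ h3 (by omega)
  unfold t
  rw [div_le_one (by positivity)]
  nlinarith

/-- **Main theorem.** -/
theorem result (h d : ℕ) (C : ℝ) (hC : 1 < C) :
    ∃ D : ℝ, 1 < D ∧ ∃ n0 : ℕ, ∀ n : ℕ, n0 ≤ n →
      ∀ P : MvPolynomial (Fin (h + 1)) ℤ, (∀ c : ℤ, P ≠ MvPolynomial.C c) → P.totalDegree ≤ d →
      (∀ e, |((P.coeff e : ℤ) : ℝ)| ≤ C ^ n) →
      ∀ M : ℕ, D ^ n ≤ M →
        discrepancy (aeval (fun i : Fin (h + 1) => t (n + i)) P) M ≤ (C ^ n)⁻¹ := by
  have hC0 : 0 < C := by linarith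
  set C' : ℝ := 12 * C * (C * (2 + ((d : ℝ) + 1) ^ (h + 1))) with hC'
  obtain ⟨B, hB, n0, hmain⟩ :=
    Pool.Agent.Results.MP_f1a024_nt.ExponentialHeights.result h d C'
  refine ⟨16 * B * C, by nlinarith, n0 + 2, fun n hn P hPc hPd hPC M hM => ?_⟩
  set y : ℝ := aeval (fun i : Fin (h + 1) => t (n + i)) P with hy
  show Pool.Agent.Q158.EqD.disc y M ≤ (C ^ n)⁻¹
  apply Pool.Agent.Q158.EqD.disc_exp hC hB n (by omega) y _ M hM
  intro q p hq hqC hqp
  have hqR : (1 : ℝ) ≤ q := by exact_mod_cast hq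
  have hbound : |y| ≤ ((d : ℝ) + 1) ^ (h + 1) * (C ^ n * 1 ^ d) := by
    apply Pool.Agent.Q158.EqD.aeval_bound _ 1 le_rfl _ d P hPd _ hPC
    intro i
    rw [abs_of_nonneg (t_nonneg _)]
    exact t_le _ (by omega)
  rw [one_pow, mul_one] at hbound
  have hp : |(p : ℝ)| ≤ q * |y| + 1 := by
    have h1 : |(p : ℝ)| ≤ |(q : ℝ) * y| + |(q : ℝ) * y - p| := by
      have := abs_sub_abs_le_abs_sub (p : ℝ) ((q : ℝ) * y)
      rw [abs_sub_comm] at this
      linarith
    rw [abs_mul, abs_of_pos (by linarith : (0 : ℝ) < q)] at h1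
    linarith
  -- the polynomial `q P - p`
  set Q : MvPolynomial (Fin (h + 1)) ℤ := MvPolynomial.C q * P - MvPolynomial.C p with hQ
  have hQ0 : Q ≠ 0 := by
    intro h0
    apply hPc (P.coeff 0)
    ext e
    rw [coeff_C]
    split_ifs with he
    · rw [he]
    · have h1 : Q.coeff e = 0 := by rw [h0, coeff_zero]
      rw [hQ, coeff_sub, coeff_C_mul, coeff_C, if_neg he, sub_zero] at h1
      rcases mul_eq_zero.1 h1 with h2 | h2
      · omega
      · exact h2
  have hQd : Q.totalDegree ≤ d := by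
    rw [hQ]
    refine (totalDegree_sub _ _).trans (max_le ?_ ?_)
    · exact ((totalDegree_mul _ _).trans (by rw [totalDegree_C, zero_add])).trans hPd
    · rw [totalDegree_C]; exact Nat.zero_le _
  have hQC : ∀ e, |((Q.coeff e : ℤ) : ℝ)| ≤ C' ^ n := by
    intro e
    have h1 : |((Q.coeff e : ℤ) : ℝ)| ≤ q * C ^ n + |(p : ℝ)| := by
      rw [hQ, coeff_sub, coeff_C_mul, coeff_C]
      push_cast
      refine (abs_sub _ _).trans ?_
      apply add_le_add
      · rw [abs_mul, abs_of_pos (by linarith : (0 : ℝ) < q)]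
        exact mul_le_mul_of_nonneg_left (hPC e) (by linarith)
      · split_ifs with he
        · exact le_rfl
        · simp
    have hCn : 1 ≤ C ^ n := one_le_pow₀ hC.le
    set S : ℝ := ((d : ℝ) + 1) ^ (h + 1) with hS
    have hS0 : 0 ≤ S := by rw [hS]; positivity
    have h2 : q * C ^ n + |(p : ℝ)| ≤ q * (C ^ n * (2 + S)) := by
      have h3 : (q : ℝ) * |y| ≤ q * (S * C ^ n) := mul_le_mul_of_nonneg_left hbound (by linarith)
      have h4 : (1 : ℝ) ≤ q * C ^ n := by nlinarith
      have h5 : (q : ℝ) * (C ^ n * (2 + S)) = 2 * (q * C ^ n) + q * (S * C ^ n) := by ring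
      rw [h5]
      linarith
    have h6 : (2 : ℝ) + S ≤ (2 + S) ^ n := le_self_pow₀ (by linarith) (by omega)
    calc |((Q.coeff e : ℤ) : ℝ)| ≤ q * (C ^ n * (2 + S)) := h1.trans h2
      _ ≤ (12 * C) ^ n * (C ^ n * (2 + S) ^ n) := by
          apply mul_le_mul hqC _ (by positivity) (by positivity)
          exact mul_le_mul_of_nonneg_left h6 (by positivity)
      _ = C' ^ n := by rw [hC', mul_pow (12 * C), mul_pow C]
  have hfin := hmain n (by omega) Q hQ0 hQd hQC
  have hval : aeval (fun i : Fin (h + 1) =>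
      Pool.Agent.Results.MP_f1a024_nt.ExponentialHeights.t (n + i)) Q = ((q * y - p : ℝ) : ℂ) := by
    have h3 : (fun i : Fin (h + 1) =>
        Pool.Agent.Results.MP_f1a024_nt.ExponentialHeights.t (n + i)) =
        (algebraMap ℝ ℂ) ∘ fun i : Fin (h + 1) => t (n + i) := by
      funext i
      rw [← t_cast (n + i) (by omega)]
      rfl
    rw [h3, aeval_algebraMap_apply (A := ℝ) ℂ (fun i : Fin (h + 1) => t (n + i)) Q, hQ]
    simp only [map_sub, map_mul, algHom_C]
    rw [← hy]
    simp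
  rw [hval, Complex.norm_real, Real.norm_eq_abs] at hfin
  exact hfin

/-- `y` is irrational if and only if the discrepancies tend to zero. -/
theorem discrepancy_tendsto_iff (y : ℝ) :
    Filter.Tendsto (fun M : ℕ => discrepancy y M) Filter.atTop (nhds 0) ↔ Irrational y :=
  Pool.Agent.Q158.EqD.tendsto_iff y

end

end Pool.Agent.Results.MP_f1a024_nt.UniformDiscrepancy
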